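import Pool.Agent.Lib_helper31.DIC.Three

/-!
# Every even class contains a third
-/

set_option autoImplicit false

namespace Pool.Agent.Lib_helper31.DIC

open Finset Pool.Agent.AAM

/-- In every long window almost all multiples of `q` are in `D`. -/
def AlmostAll (D : Set ℕ) (q : ℕ) : Prop := ∀ η : ℝ, 0 < η → ∃ L : ℕ, ∀ n ≥ L, ∀ x : ℕ,
  (({d : ℕ | q ∣ d ∧ d ∉ D} ∩ Set.Ioc x (x + n)).ncard : ℝ) ≤ η * n

/-- Every long window contains at least `(s - e) n` elements of `D` that are congruent to `a`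
modulo `q`. -/
def Share (D : Set ℕ) (q a : ℕ) (s : ℝ) : Prop := ∀ e : ℝ, 0 < e → ∃ L : ℕ, ∀ n ≥ L, ∀ x : ℕ,
  (s - e) * n ≤ (({d : ℕ | d ≡ a [MOD q] ∧ d ∈ D} ∩ Set.Ioc x (x + n)).ncard : ℝ)

/-- a window contains many members of a class -/
theorem class_count (q a n x : ℕ) (hq : 0 < q) :
    n / q ≤ ((Ioc x (x + n)).filter fun y => y ≡ a [MOD q]).card := by
  classical
  -- the first member after `x`
  obtain ⟨r, hr1, hr2, hr3⟩ : ∃ r, 1 ≤ r ∧ r ≤ q ∧ x + r ≡ a [MOD q] := by
    have h1 : x % q < q := Nat.mod_lt _ hq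
    have h2 : a % q < q := Nat.mod_lt _ hq
    by_cases h : x % q < a % q
    · refine ⟨a % q - x % q, by omega, by omega, ?_⟩
      have h3 : x + (a % q - x % q) = q * (x / q) + a % q := by
        have := Nat.div_add_mod x q
        omega
      show (x + (a % q - x % q)) % q = a % q
      rw [h3, Nat.mul_add_mod]
      exact Nat.mod_mod _ _
    · refine ⟨q + a % q - x % q, by omega, by omega, ?_⟩
      have h3 : x + (q + a % q - x % q) = q * (x / q + 1) + a % q := by
        have := Nat.div_add_mod x q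
        rw [mul_add, mul_one]
        omega
      show (x + (q + a % q - x % q)) % q = a % q
      rw [h3, Nat.mul_add_mod]
      exact Nat.mod_mod _ _
  have h4 : (range (n / q)).card ≤ ((Ioc x (x + n)).filter fun y => y ≡ a [MOD q]).card := by
    refine card_le_card_of_injOn (fun j => x + r + q * j) (fun j hj => ?_) (fun j _ j' _ h => ?_)
    · have hj' : j < n / q := by simpa using hj
      have h5 : q * (j + 1) ≤ q * (n / q) := Nat.mul_le_mul_left q hj'
      have h6 : q * (n / q) ≤ n := Nat.mul_div_le n q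
      rw [mul_add, mul_one] at h5
      simp only [coe_filter, mem_Ioc, Set.mem_ofPred_eq]
      refine ⟨⟨by omega, by omega⟩, ?_⟩
      show (x + r + q * j) % q = a % q
      rw [Nat.add_mul_mod_self_left]
      exact hr3
    · dsimp only at h
      have h5 : q * j = q * j' := by omega
      exact Nat.eq_of_mul_eq_mul_left hq h5
  rwa [card_range] at h4

theorem third {D : Set ℕ} (hD : Pairs D) (h0 : 0 ∉ D) (q : ℕ) (hq0 : 0 < q) (hq : 6 ∣ q)
    (h : ¬ AlmostAll D q) (a : ℕ) (ha : Even a) : Share D q a (1 / (3 * (q : ℝ))) := by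
  classical
  intro e he
  have hB : PosBanach {d : ℕ | q ∣ d ∧ d ∉ D} := by
    unfold AlmostAll at h
    push Not at h
    exact h
  obtain ⟨F, hF, L, hL⟩ := three_term hD _ hB e he
  set M := F.sup id with hM
  obtain ⟨N, hN⟩ := exists_nat_gt ((3 * (M : ℝ) + 1) / e)
  refine ⟨max L N, fun n hn x => ?_⟩
  obtain ⟨d, hd, hbad⟩ := hL n ((le_max_left _ _).trans hn) x
  have hdM : d ≤ M := by
    rw [hM]
    exact le_sup (f := id) hd
  obtain ⟨hqd, hdD⟩ := hF d hd
  have hdD : d ∉ D := hdD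
  have h6d : 6 ∣ d := hq.trans hqd
  set g := ({d : ℕ | d ≡ a [MOD q] ∧ d ∈ D} ∩ Set.Ioc x (x + n)).ncard with hg
  have hgF : g = ((Ioc x (x + n)).filter fun y => y ≡ a [MOD q] ∧ y ∈ D).card := by
    rw [hg, ← Set.ncard_coe_finset]
    congr 1
    ext y
    simp only [coe_filter, mem_Ioc, Set.mem_inter_iff, Set.mem_Ioc, Set.mem_ofPred_eq]
    tauto
  have hbF : (({y : ℕ | BadPair D d y} ∩ Set.Ioc x (x + n)).ncard) =
      ((Ioc x (x + n)).filter fun y => BadPair D d y).card := by
    rw [← Set.ncard_coe_finset]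
    congr 1
    ext y
    simp only [coe_filter, mem_Ioc, Set.mem_inter_iff, Set.mem_Ioc, Set.mem_ofPred_eq]
    tauto
  rw [hbF] at hbad
  have hmod : ∀ y, y ≡ a [MOD q] → Even y := by
    intro y hy
    have h1 : y ≡ a [MOD 2] := hy.of_dvd ((by norm_num : 2 ∣ 6).trans hq)
    have h2 : y % 2 = a % 2 := h1
    rw [Nat.even_iff] at ha ⊢
    omega
  -- the cover
  have hsub : ((Ioc x (x + n)).filter fun y => y ≡ a [MOD q]) ⊆
      ((Ioc x (x + n)).filter fun y => BadPair D d y) ∪
      ((Ioc x (x + n)).filter fun y => y ≡ a [MOD q] ∧ y ∈ D) ∪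
      ((Ioc x (x + n)).filter fun y => y ≡ a [MOD q] ∧ d + y ∈ D) ∪
      ((Ioc x (x + n)).filter fun y => y ≡ a [MOD q] ∧ d < y ∧ y - d ∈ D) ∪
      ((Ioc x (x + n)).filter fun y => y < d) := by
    intro y hy
    simp only [mem_union, mem_filter] at hy ⊢
    obtain ⟨hy1, hy2⟩ := hy
    by_cases c1 : y ∈ D
    · exact Or.inl (Or.inl (Or.inl (Or.inr ⟨hy1, hy2, c1⟩)))
    by_cases c2 : d + y ∈ D
    · exact Or.inl (Or.inl (Or.inr ⟨hy1, hy2, c2⟩))
    by_cases c3 : y < d
    · exact Or.inr ⟨hy1, c3⟩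
    have c4 : d - y ∉ D := by
      have : d - y = 0 := by omega
      rw [this]
      exact h0
    by_cases c5 : y - d ∈ D
    · refine Or.inl (Or.inr ⟨hy1, hy2, ?_, c5⟩)
      by_contra hlt
      have : y - d = 0 := by omega
      rw [this] at c5
      exact h0 c5
    refine Or.inl (Or.inl (Or.inl (Or.inl ⟨hy1, ?_⟩)))
    refine ⟨?_, hmod y hy2, Or.inl ((by norm_num : 3 ∣ 6).trans h6d), hdD, c1, c2, c4, c5⟩
    exact even_iff_two_dvd.2 ((by norm_num : 2 ∣ 6).trans h6d)
  have k1 : ((Ioc x (x + n)).filter fun y => y ≡ a [MOD q] ∧ d + y ∈ D).card ≤ g + d := by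
    have h1 : ((Ioc x (x + n)).filter fun y => y ≡ a [MOD q] ∧ d + y ∈ D).card ≤
        (((Ioc x (x + n)).filter fun y => y ≡ a [MOD q] ∧ y ∈ D) ∪ Ioc (x + n) (x + n + d)).card := by
      refine card_le_card_of_injOn (fun y => d + y) (fun y hy => ?_) (fun y _ y' _ h => ?_)
      · simp only [coe_filter, mem_Ioc, Set.mem_ofPred_eq] at hy
        simp only [coe_union, coe_filter, Set.mem_union, mem_Ioc, Set.mem_ofPred_eq, coe_Ioc,
          Set.mem_Ioc]
        obtain ⟨⟨hy1, hy2⟩, hy3, hy4⟩ := hy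
        by_cases c : d + y ≤ x + n
        · refine Or.inl ⟨⟨by omega, c⟩, ?_, hy4⟩
          have h2 : d + y ≡ 0 + a [MOD q] := Nat.ModEq.add ((Nat.modEq_zero_iff_dvd).2 hqd) hy3
          rwa [zero_add] at h2
        · exact Or.inr ⟨by omega, by omega⟩
      · dsimp only at h
        omega
    refine h1.trans ((card_union_le _ _).trans ?_)
    rw [← hgF, Nat.card_Ioc]
    omega
  have k2 : ((Ioc x (x + n)).filter fun y => y ≡ a [MOD q] ∧ d < y ∧ y - d ∈ D).card ≤ g + d := by
    have h1 : ((Ioc x (x + n)).filter fun y => y ≡ a [MOD q] ∧ d < y ∧ y - d ∈ D).card ≤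
        (((Ioc x (x + n)).filter fun y => y ≡ a [MOD q] ∧ y ∈ D) ∪ Ioc (x - d) x).card := by
      refine card_le_card_of_injOn (fun y => y - d) (fun y hy => ?_) (fun y hy y' hy' h => ?_)
      · simp only [coe_filter, mem_Ioc, Set.mem_ofPred_eq] at hy
        simp only [coe_union, coe_filter, Set.mem_union, mem_Ioc, Set.mem_ofPred_eq, coe_Ioc,
          Set.mem_Ioc]
        obtain ⟨⟨hy1, hy2⟩, hy3, hy4, hy5⟩ := hy
        by_cases c : x < y - d
        · refine Or.inl ⟨⟨c, by omega⟩, ?_, hy5⟩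
          have h2 : y - d + d ≡ a + 0 [MOD q] := by
            rw [Nat.sub_add_cancel hy4.le, add_zero]
            exact hy3
          exact Nat.ModEq.add_right_cancel ((Nat.modEq_zero_iff_dvd).2 hqd) h2
        · exact Or.inr ⟨by omega, by omega⟩
      · simp only [coe_filter, mem_Ioc, Set.mem_ofPred_eq] at hy hy'
        dsimp only at h
        omega
    refine h1.trans ((card_union_le _ _).trans ?_)
    rw [← hgF, Nat.card_Ioc]
    omega
  have k3 : ((Ioc x (x + n)).filter fun y => y < d).card ≤ d := by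
    have h1 : ((Ioc x (x + n)).filter fun y => y < d) ⊆ range d := by
      intro y hy
      rw [mem_filter] at hy
      exact mem_range.2 hy.2
    have h2 := card_le_card h1
    rwa [card_range] at h2
  have hcount := class_count q a n x hq0
  have h7 : n / q ≤ ((Ioc x (x + n)).filter fun y => BadPair D d y).card + g + (g + d) + (g + d) +
      d := by
    have h8 := card_le_card hsub
    have h9 := h8.trans ((card_union_le _ _).trans (Nat.add_le_add_right ((card_union_le _ _).trans
      (Nat.add_le_add_right ((card_union_le _ _).trans (Nat.add_le_add_right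
      (card_union_le _ _) _)) _)) _))
    rw [← hgF] at h9
    omega
  have h8 : ((n / q : ℕ) : ℝ) ≤ e * n + g + (g + d) + (g + d) + d := by
    have h9 : ((n / q : ℕ) : ℝ) ≤ ((Ioc x (x + n)).filter fun y => BadPair D d y).card + g + (g + d) +
        (g + d) + d := by exact_mod_cast h7
    linarith
  have hq0R : (0 : ℝ) < q := by exact_mod_cast hq0
  have h9 : (n : ℝ) / q - 1 ≤ ((n / q : ℕ) : ℝ) := by
    have h10 : n < q * (n / q + 1) := Nat.lt_mul_div_succ n hq0
    have h11 : (n : ℝ) ≤ q * (((n / q : ℕ) : ℝ) + 1) := by exact_mod_cast h10.le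
    rw [sub_le_iff_le_add, div_le_iff₀ hq0R]
    linarith
  have hdR : (d : ℝ) ≤ M := by exact_mod_cast hdM
  have hnN : (3 * (M : ℝ) + 1) / e < n := hN.trans_le (by exact_mod_cast (le_max_right _ _).trans hn)
  rw [div_lt_iff₀ he] at hnN
  have h12 : (n : ℝ) / q ≤ e * n + 3 * g + 3 * M + 1 := by linarith
  have h13 : (1 / (3 * (q : ℝ)) - e) * n = ((n : ℝ) / q - 3 * (e * n)) / 3 := by
    field_simp
  rw [h13]
  have h14 : 0 ≤ e * n := by positivity
  linarith

end Pool.Agent.Lib_helper31.DIC
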