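import Pool.Agent.Lib_helper42.AAM.Mult

/-!
# Sums and differences of pairs of even numbers

If `Removal D` holds, then for almost all pairs `s`, `t` of even numbers, one of them divisible by `3`,
one of `s`, `t`, `s + t`, `|s - t|` is in `D`.
-/

set_option autoImplicit false

namespace Pool.Agent.Lib_helper31.DIC

open Finset Pool.Agent.AAM

/-- `s` and `t` are even, one of them is divisible by `3`, and none of `s`, `t`, `s + t`, `|s - t|` is
in `D`. (`0` is not in `D` in the application.) -/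
def BadPair (D : Set ℕ) (s t : ℕ) : Prop :=
  Even s ∧ Even t ∧ (3 ∣ s ∨ 3 ∣ t) ∧ s ∉ D ∧ t ∉ D ∧ s + t ∉ D ∧ s - t ∉ D ∧ t - s ∉ D

theorem BadPair.symm {D : Set ℕ} {s t : ℕ} (h : BadPair D s t) : BadPair D t s :=
  ⟨h.2.1, h.1, h.2.2.1.symm, h.2.2.2.2.1, h.2.2.2.1, by rw [add_comm]; exact h.2.2.2.2.2.1,
    h.2.2.2.2.2.2.2, h.2.2.2.2.2.2.1⟩

/-- the quadruple `0, s, t, s + t` for `s < t` -/
theorem lt_case {D : Set ℕ} {Z : Finset ℕ} {s t : ℕ} (hs : 0 < s) (hst : s < t) (h : BadPair D s t)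
    (hq : ∀ a b c d : ℕ, a < b → b < c → c < d → a = 0 → b = s → c = t → d = s + t →
      (a % 2 = b % 2 ∧ a % 2 = c % 2 ∧ a % 2 = d % 2) →
      (∃ r < 3, a % 3 ≠ r ∧ b % 3 ≠ r ∧ c % 3 ≠ r ∧ d % 3 ≠ r) →
      ∃ u, (u = b - a ∨ u = c - a ∨ u = d - a ∨ u = c - b ∨ u = d - b ∨ u = d - c) ∧
        (u ∈ D ∨ u ∈ Z)) : s ∈ Z ∨ t ∈ Z ∨ s + t ∈ Z ∨ t - s ∈ Z := by
  obtain ⟨he1, he2, h3, h4, h5, h6, h7, h8⟩ := h
  rw [Nat.even_iff] at he1 he2
  obtain ⟨u, hu, hu2⟩ := hq 0 s t (s + t) hs hst (by omega) rfl rfl rfl rfl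
    ⟨by omega, by omega, by omega⟩ (by
      rcases h3 with h3 | h3
      · rcases (by omega : t % 3 = 0 ∨ t % 3 = 1 ∨ t % 3 = 2) with h | h | h
        · exact ⟨1, by norm_num, by norm_num, by omega, by omega, by omega⟩
        · exact ⟨2, by norm_num, by norm_num, by omega, by omega, by omega⟩
        · exact ⟨1, by norm_num, by norm_num, by omega, by omega, by omega⟩
      · rcases (by omega : s % 3 = 0 ∨ s % 3 = 1 ∨ s % 3 = 2) with h | h | h
        · exact ⟨1, by norm_num, by norm_num, by omega, by omega, by omega⟩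
        · exact ⟨2, by norm_num, by norm_num, by omega, by omega, by omega⟩
        · exact ⟨1, by norm_num, by norm_num, by omega, by omega, by omega⟩)
  have e1 : s - 0 = s := by omega
  have e2 : t - 0 = t := by omega
  have e3 : s + t - 0 = s + t := by omega
  have e4 : s + t - s = t := by omega
  have e5 : s + t - t = s := by omega
  rw [e1, e2, e3, e4, e5] at hu
  rcases hu2 with hD | hZ
  · exfalso
    rcases hu with rfl | rfl | rfl | rfl | rfl | rfl <;> contradiction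
  · rcases hu with rfl | rfl | rfl | rfl | rfl | rfl <;> tauto

/-- in a box of side `n` at most `n` pairs have a given coordinate sum etc. -/
theorem card_le_of_inj (n x z : ℕ) (Z : Finset ℕ) (P : Finset (ℕ × ℕ)) (f : ℕ × ℕ → ℕ × ℕ)
    (hP : ∀ p ∈ P, (f p).1 ∈ Z ∧ (f p).2 ∈ Ioc x (x + n))
    (hf : ∀ p ∈ P, ∀ p' ∈ P, f p = f p' → p = p') : (P.card : ℝ) ≤ (Z.card : ℝ) * n := by
  have h1 : P.card ≤ (Z ×ˢ Ioc x (x + n)).card :=
    card_le_card_of_injOn f (fun p hp => by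
      rw [mem_coe, mem_product]
      exact hP p hp) (fun p hp p' hp' h => hf p hp p' hp' h)
  rw [card_product, Nat.card_Ioc] at h1
  have h2 : x + n - x = n := by omega
  rw [h2] at h1
  exact_mod_cast h1

open Classical in
theorem pairs_of_removal {D : Set ℕ} (hD : Removal D) (e : ℝ) (he : 0 < e) : ∃ N : ℕ, ∀ n ≥ N,
    ∀ x z : ℕ, (((Ioc x (x + n) ×ˢ Ioc z (z + n)).filter fun p => BadPair D p.1 p.2).card : ℝ) ≤
      e * (n : ℝ) ^ 2 := by
  obtain ⟨L, hL⟩ := hD 4 (e / 30) (by positivity)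
  obtain ⟨N1, hN1⟩ := exists_nat_gt (2 / e)
  refine ⟨max (max L 1) N1, fun n hn x z => ?_⟩
  have hn1 : 1 ≤ n := (le_max_right L 1).trans ((le_max_left _ _).trans hn)
  have hnL : L ≤ n := (le_max_left L 1).trans ((le_max_left _ _).trans hn)
  have hnN : (2 / e : ℝ) ≤ n := hN1.le.trans (by exact_mod_cast (le_max_right _ _).trans hn)
  obtain ⟨Z, hZ, hq⟩ := hL (2 * n + 1) (by omega) ![0, x, z, x + z]
  have hmem : ∀ s t : ℕ, s ∈ Ioc x (x + n) → t ∈ Ioc z (z + n) → ∀ u : ℕ,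
      u = 0 ∨ u = s ∨ u = t ∨ u = s + t →
      ∃ i, (![0, x, z, x + z] : Fin 4 → ℕ) i ≤ u ∧ u < (![0, x, z, x + z] : Fin 4 → ℕ) i + (2 * n + 1) := by
    intro s t hs ht u hu
    rw [mem_Ioc] at hs ht
    rcases hu with rfl | rfl | rfl | rfl
    · exact ⟨0, by simp, by simp⟩
    · exact ⟨1, by simp; omega, by simp; omega⟩
    · exact ⟨2, by simp; omega, by simp; omega⟩
    · exact ⟨3, by simp; omega, by simp; omega⟩
  set P := (Ioc x (x + n) ×ˢ Ioc z (z + n)).filter fun p => BadPair D p.1 p.2 with hP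
  have hmP : ∀ p ∈ P, p.1 ∈ Ioc x (x + n) ∧ p.2 ∈ Ioc z (z + n) ∧ BadPair D p.1 p.2 := by
    intro p hp
    rw [hP, mem_filter, mem_product] at hp
    exact ⟨hp.1.1, hp.1.2, hp.2⟩
  have hkey : ∀ p ∈ P, p.1 = p.2 ∨ p.1 ∈ Z ∨ p.2 ∈ Z ∨ p.1 + p.2 ∈ Z ∨
      (p.1 < p.2 ∧ p.2 - p.1 ∈ Z) ∨ (p.2 < p.1 ∧ p.1 - p.2 ∈ Z) := by
    intro p hp
    obtain ⟨h1, h2, h3⟩ := hmP p hp
    have hs0 : 0 < p.1 := by rw [mem_Ioc] at h1; omega
    have ht0 : 0 < p.2 := by rw [mem_Ioc] at h2; omega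
    rcases lt_trichotomy p.1 p.2 with hlt | heq | hlt
    · have h4 := lt_case (D := D) (Z := Z) hs0 hlt h3 (by
        intro a b c d hab hbc hcd ha hb hc hd hpar hcl
        exact hq a b c d hab hbc hcd (by
          intro u hu
          refine hmem p.1 p.2 h1 h2 u ?_
          rw [ha, hb, hc, hd] at hu
          exact hu) hpar hcl)
      rcases h4 with h4 | h4 | h4 | h4
      · exact Or.inr (Or.inl h4)
      · exact Or.inr (Or.inr (Or.inl h4))
      · exact Or.inr (Or.inr (Or.inr (Or.inl h4)))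
      · exact Or.inr (Or.inr (Or.inr (Or.inr (Or.inl ⟨hlt, h4⟩))))
    · exact Or.inl heq
    · have h4 := lt_case (D := D) (Z := Z) ht0 hlt h3.symm (by
        intro a b c d hab hbc hcd ha hb hc hd hpar hcl
        exact hq a b c d hab hbc hcd (by
          intro u hu
          refine hmem p.1 p.2 h1 h2 u ?_
          rw [ha, hb, hc, hd] at hu
          rcases hu with h | h | h | h
          · exact Or.inl h
          · exact Or.inr (Or.inr (Or.inl h))
          · exact Or.inr (Or.inl h)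
          · exact Or.inr (Or.inr (Or.inr (by omega)))) hpar hcl)
      rcases h4 with h4 | h4 | h4 | h4
      · exact Or.inr (Or.inr (Or.inl h4))
      · exact Or.inr (Or.inl h4)
      · exact Or.inr (Or.inr (Or.inr (Or.inl (by rw [add_comm]; exact h4))))
      · exact Or.inr (Or.inr (Or.inr (Or.inr (Or.inr ⟨hlt, h4⟩))))
  have hsub : P ⊆ (P.filter fun p => p.1 = p.2) ∪ (P.filter fun p => p.1 ∈ Z) ∪
      (P.filter fun p => p.2 ∈ Z) ∪ (P.filter fun p => p.1 + p.2 ∈ Z) ∪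
      (P.filter fun p => p.1 < p.2 ∧ p.2 - p.1 ∈ Z) ∪
      (P.filter fun p => p.2 < p.1 ∧ p.1 - p.2 ∈ Z) := by
    intro p hp
    simp only [mem_union, mem_filter]
    rcases hkey p hp with h | h | h | h | h | h
    · exact Or.inl (Or.inl (Or.inl (Or.inl (Or.inl ⟨hp, h⟩))))
    · exact Or.inl (Or.inl (Or.inl (Or.inl (Or.inr ⟨hp, h⟩))))
    · exact Or.inl (Or.inl (Or.inl (Or.inr ⟨hp, h⟩)))
    · exact Or.inl (Or.inl (Or.inr ⟨hp, h⟩))
    · exact Or.inl (Or.inr ⟨hp, h⟩)
    · exact Or.inr ⟨hp, h⟩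
  have c0 : ((P.filter fun p => p.1 = p.2).card : ℝ) ≤ n := by
    have h1 : (P.filter fun p => p.1 = p.2).card ≤ (Ioc x (x + n)).card := by
      refine card_le_card_of_injOn Prod.fst (fun p hp => ?_) (fun p hp p' hp' h => ?_)
      · exact (hmP p (mem_filter.1 hp).1).1
      · have h1 := (mem_filter.1 (mem_coe.1 hp)).2
        have h2 := (mem_filter.1 (mem_coe.1 hp')).2
        exact Prod.ext h (by rw [← h1, ← h2]; exact h)
    rw [Nat.card_Ioc] at h1
    have h2 : x + n - x = n := by omega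
    rw [h2] at h1
    exact_mod_cast h1
  have c1 : ((P.filter fun p => p.1 ∈ Z).card : ℝ) ≤ Z.card * n :=
    card_le_of_inj n z z Z _ id (fun p hp => ⟨(mem_filter.1 hp).2, (hmP p (mem_filter.1 hp).1).2.1⟩)
      (fun p _ p' _ h => h)
  have c2 : ((P.filter fun p => p.2 ∈ Z).card : ℝ) ≤ Z.card * n :=
    card_le_of_inj n x x Z _ Prod.swap
      (fun p hp => ⟨(mem_filter.1 hp).2, (hmP p (mem_filter.1 hp).1).1⟩)
      (fun p _ p' _ h => Prod.swap_injective h)
  have c3 : ((P.filter fun p => p.1 + p.2 ∈ Z).card : ℝ) ≤ Z.card * n :=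
    card_le_of_inj n x x Z _ (fun p => (p.1 + p.2, p.1))
      (fun p hp => ⟨(mem_filter.1 hp).2, (hmP p (mem_filter.1 hp).1).1⟩)
      (fun p _ p' _ h => by
        have h1 := congrArg Prod.fst h
        have h2 := congrArg Prod.snd h
        dsimp only at h1 h2
        exact Prod.ext h2 (by omega))
  have c4 : ((P.filter fun p => p.1 < p.2 ∧ p.2 - p.1 ∈ Z).card : ℝ) ≤ Z.card * n :=
    card_le_of_inj n x x Z _ (fun p => (p.2 - p.1, p.1))
      (fun p hp => ⟨(mem_filter.1 hp).2.2, (hmP p (mem_filter.1 hp).1).1⟩)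
      (fun p hp p' hp' h => by
        have h1 := congrArg Prod.fst h
        have h2 := congrArg Prod.snd h
        have h3 := (mem_filter.1 hp).2.1
        have h4 := (mem_filter.1 hp').2.1
        dsimp only at h1 h2
        exact Prod.ext h2 (by omega))
  have c5 : ((P.filter fun p => p.2 < p.1 ∧ p.1 - p.2 ∈ Z).card : ℝ) ≤ Z.card * n :=
    card_le_of_inj n x x Z _ (fun p => (p.1 - p.2, p.1))
      (fun p hp => ⟨(mem_filter.1 hp).2.2, (hmP p (mem_filter.1 hp).1).1⟩)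
      (fun p hp p' hp' h => by
        have h1 := congrArg Prod.fst h
        have h2 := congrArg Prod.snd h
        have h3 := (mem_filter.1 hp).2.1
        have h4 := (mem_filter.1 hp').2.1
        dsimp only at h1 h2
        exact Prod.ext h2 (by omega))
  have hc : (P.card : ℝ) ≤ n + Z.card * n + Z.card * n + Z.card * n + Z.card * n + Z.card * n := by
    have h1 := card_le_card hsub
    have h2 := h1.trans ((card_union_le _ _).trans (Nat.add_le_add_right ((card_union_le _ _).trans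
      (Nat.add_le_add_right ((card_union_le _ _).trans (Nat.add_le_add_right ((card_union_le _ _).trans
      (Nat.add_le_add_right (card_union_le _ _) _)) _)) _)) _))
    have h3 : (P.card : ℝ) ≤ (((P.filter fun p => p.1 = p.2).card + (P.filter fun p => p.1 ∈ Z).card +
      (P.filter fun p => p.2 ∈ Z).card + (P.filter fun p => p.1 + p.2 ∈ Z).card +
      (P.filter fun p => p.1 < p.2 ∧ p.2 - p.1 ∈ Z).card +
      (P.filter fun p => p.2 < p.1 ∧ p.1 - p.2 ∈ Z).card : ℕ) : ℝ) := by exact_mod_cast h2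
    push_cast at h3
    linarith
  have hnR : (1 : ℝ) ≤ n := by exact_mod_cast hn1
  have hZ' : (Z.card : ℝ) ≤ e / 10 * n := by
    refine hZ.trans ?_
    push_cast
    have h1 : 0 ≤ e * (n - 1) := mul_nonneg he.le (by linarith)
    nlinarith
  have hZn : (Z.card : ℝ) * n ≤ e / 10 * (n : ℝ) ^ 2 := by
    calc (Z.card : ℝ) * n ≤ e / 10 * n * n := mul_le_mul_of_nonneg_right hZ' (by positivity)
      _ = e / 10 * (n : ℝ) ^ 2 := by ring
  have hn2 : (n : ℝ) ≤ e / 2 * (n : ℝ) ^ 2 := by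
    have h1 : 2 ≤ e * n := by
      rw [div_le_iff₀ he] at hnN
      linarith
    nlinarith
  calc (P.card : ℝ) ≤ n + Z.card * n + Z.card * n + Z.card * n + Z.card * n + Z.card * n := hc
    _ ≤ e / 2 * (n : ℝ) ^ 2 + 5 * (e / 10 * (n : ℝ) ^ 2) := by linarith
    _ = e * (n : ℝ) ^ 2 := by ring

end Pool.Agent.Lib_helper31.DIC
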