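import Pool.Agent.Lib_helper31.DIC.Pairs

/-!
# Three terms: a dense set of numbers outside `D` forces numbers in `D` everywhere
-/

set_option autoImplicit false

namespace Pool.Agent.Lib_helper31.DIC

open Finset Pool.Agent.AAM

/-- For almost all pairs, in every box, in the sense of `BadPair`. -/
def Pairs (D : Set ℕ) : Prop := ∀ e : ℝ, 0 < e → ∃ N : ℕ, ∀ n ≥ N, ∀ x z : ℕ,
  (({p : ℕ × ℕ | p.1 ∈ Set.Ioc x (x + n) ∧ p.2 ∈ Set.Ioc z (z + n) ∧ BadPair D p.1 p.2}).ncard : ℝ) ≤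
    e * (n : ℝ) ^ 2

theorem pairs_of {D : Set ℕ} (hD : Removal D) : Pairs D := by
  classical
  intro e he
  obtain ⟨N, hN⟩ := pairs_of_removal hD e he
  refine ⟨N, fun n hn x z => ?_⟩
  have h := hN n hn x z
  have h1 : {p : ℕ × ℕ | p.1 ∈ Set.Ioc x (x + n) ∧ p.2 ∈ Set.Ioc z (z + n) ∧ BadPair D p.1 p.2} =
      (((Ioc x (x + n) ×ˢ Ioc z (z + n)).filter fun p => BadPair D p.1 p.2 : Finset (ℕ × ℕ)) :
        Set (ℕ × ℕ)) := by
    ext p
    simp only [Set.mem_ofPred_eq, coe_filter, mem_product, mem_Ioc, Set.mem_Ioc]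
    tauto
  rw [h1, Set.ncard_coe_finset]
  exact h

/-- positive upper Banach density -/
def PosBanach (B : Set ℕ) : Prop :=
  ∃ η : ℝ, 0 < η ∧ ∀ L : ℕ, ∃ n ≥ L, ∃ x : ℕ, η * n < ((B ∩ Set.Ioc x (x + n)).ncard : ℝ)

theorem three_term {D : Set ℕ} (hD : Pairs D) (B : Set ℕ) (hB : PosBanach B) (e : ℝ) (he : 0 < e) :
    ∃ F : Finset ℕ, (∀ d ∈ F, d ∈ B) ∧ ∃ L : ℕ, ∀ n ≥ L, ∀ z : ℕ, ∃ d ∈ F,
      (({y : ℕ | BadPair D d y} ∩ Set.Ioc z (z + n)).ncard : ℝ) ≤ e * n := by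
  classical
  obtain ⟨η, hη, hB⟩ := hB
  obtain ⟨N, hN⟩ := hD (η * e / 2) (by positivity)
  obtain ⟨n0, hn0, x0, hx0⟩ := hB (max N 1)
  have hN0 : N ≤ n0 := (le_max_left _ _).trans hn0
  have h10 : 1 ≤ n0 := (le_max_right _ _).trans hn0
  have hn0R : (1 : ℝ) ≤ n0 := by exact_mod_cast h10
  set F := (Ioc x0 (x0 + n0)).filter (· ∈ B) with hF
  have hFc : (F.card : ℝ) = ((B ∩ Set.Ioc x0 (x0 + n0)).ncard : ℝ) := by
    have h1 : B ∩ Set.Ioc x0 (x0 + n0) = (F : Set ℕ) := by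
      ext y
      rw [hF]
      simp only [coe_filter, mem_Ioc, Set.mem_inter_iff, Set.mem_Ioc, Set.mem_ofPred_eq]
      tauto
    rw [h1, Set.ncard_coe_finset]
  rw [← hFc] at hx0
  refine ⟨F, fun d hd => (mem_filter.1 hd).2, n0, fun n hn z => ?_⟩
  by_contra hcon
  push Not at hcon
  have hnR : (n0 : ℝ) ≤ n := by exact_mod_cast hn
  have hn1 : (1 : ℝ) ≤ n := hn0R.trans hnR
  -- the bad pairs
  have hbad : ∀ d, (({y : ℕ | BadPair D d y} ∩ Set.Ioc z (z + n)).ncard) =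
      ((Ioc z (z + n)).filter fun y => BadPair D d y).card := by
    intro d
    rw [← Set.ncard_coe_finset]
    congr 1
    ext y
    simp only [coe_filter, mem_Ioc, Set.mem_inter_iff, Set.mem_Ioc, Set.mem_ofPred_eq]
    tauto
  have hbox : ∀ i : ℕ, (((Ioc x0 (x0 + n0) ×ˢ Ioc (z + i * n0) (z + i * n0 + n0)).filter
      fun p => BadPair D p.1 p.2).card : ℝ) ≤ η * e / 2 * (n0 : ℝ) ^ 2 := by
    intro i
    have h := hN n0 hN0 x0 (z + i * n0)
    have h1 : {p : ℕ × ℕ | p.1 ∈ Set.Ioc x0 (x0 + n0) ∧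
        p.2 ∈ Set.Ioc (z + i * n0) (z + i * n0 + n0) ∧ BadPair D p.1 p.2} =
        (((Ioc x0 (x0 + n0) ×ˢ Ioc (z + i * n0) (z + i * n0 + n0)).filter
          fun p => BadPair D p.1 p.2 : Finset (ℕ × ℕ)) : Set (ℕ × ℕ)) := by
      ext p
      simp only [Set.mem_ofPred_eq, coe_filter, mem_product, mem_Ioc, Set.mem_Ioc]
      tauto
    rw [h1, Set.ncard_coe_finset] at h
    exact h
  set k := n / n0 + 1 with hk
  have hsub : ((F ×ˢ Ioc z (z + n)).filter fun p => BadPair D p.1 p.2) ⊆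
      (range k).biUnion fun i => ((Ioc x0 (x0 + n0) ×ˢ Ioc (z + i * n0) (z + i * n0 + n0)).filter
        fun p => BadPair D p.1 p.2) := by
    intro p hp
    rw [mem_filter, mem_product, mem_Ioc] at hp
    rw [mem_biUnion]
    refine ⟨(p.2 - z - 1) / n0, ?_, ?_⟩
    · rw [mem_range, hk]
      have h1 : (p.2 - z - 1) / n0 ≤ n / n0 := Nat.div_le_div_right (by omega)
      omega
    · rw [mem_filter, mem_product, mem_Ioc, mem_Ioc]
      have h1 := Nat.div_add_mod (p.2 - z - 1) n0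
      have h2 := Nat.mod_lt (p.2 - z - 1) (show 0 < n0 by omega)
      rw [mul_comm] at h1
      have h3 := (mem_filter.1 hp.1.1).1
      rw [mem_Ioc] at h3
      refine ⟨⟨h3, ?_, ?_⟩, hp.2⟩
      · omega
      · omega
  have h1 : ((((F ×ˢ Ioc z (z + n)).filter fun p => BadPair D p.1 p.2).card : ℕ) : ℝ) ≤
      k * (η * e / 2 * (n0 : ℝ) ^ 2) := by
    calc ((((F ×ˢ Ioc z (z + n)).filter fun p => BadPair D p.1 p.2).card : ℕ) : ℝ)
        ≤ ((∑ i ∈ range k, ((Ioc x0 (x0 + n0) ×ˢ Ioc (z + i * n0) (z + i * n0 + n0)).filter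
          fun p => BadPair D p.1 p.2).card : ℕ) : ℝ) := by
          exact_mod_cast (card_le_card hsub).trans card_biUnion_le
      _ = ∑ i ∈ range k, (((Ioc x0 (x0 + n0) ×ˢ Ioc (z + i * n0) (z + i * n0 + n0)).filter
          fun p => BadPair D p.1 p.2).card : ℝ) := by push_cast; rfl
      _ ≤ ∑ i ∈ range k, (η * e / 2 * (n0 : ℝ) ^ 2) := sum_le_sum fun i _ => hbox i
      _ = k * (η * e / 2 * (n0 : ℝ) ^ 2) := by rw [sum_const, card_range, nsmul_eq_mul]
  have h2 : (((F ×ˢ Ioc z (z + n)).filter fun p => BadPair D p.1 p.2).card) =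
      ∑ d ∈ F, ((Ioc z (z + n)).filter fun y => BadPair D d y).card := by
    rw [card_filter, sum_product]
    exact sum_congr rfl fun d _ => by rw [card_filter]
  have h3 : (F.card : ℝ) * (e * n) ≤
      ((((F ×ˢ Ioc z (z + n)).filter fun p => BadPair D p.1 p.2).card : ℕ) : ℝ) := by
    rw [h2]
    push_cast
    rw [← nsmul_eq_mul, ← sum_const]
    exact sum_le_sum fun d hd => by
      have := hcon d hd
      rw [hbad] at this
      exact this.le
  have h4 : (k : ℝ) * n0 ≤ 2 * n := by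
    have h5 : k * n0 ≤ 2 * n := by
      rw [hk, add_mul, one_mul]
      have := Nat.div_mul_le_self n n0
      omega
    exact_mod_cast h5
  have hF0 : η * n0 * (e * n) < F.card * (e * n) := mul_lt_mul_of_pos_right hx0 (by positivity)
  have h6 : (k : ℝ) * (η * e / 2 * (n0 : ℝ) ^ 2) ≤ η * n0 * (e * n) := by
    calc (k : ℝ) * (η * e / 2 * (n0 : ℝ) ^ 2) = (k * n0) * (η * e / 2 * n0) := by ring
      _ ≤ (2 * n) * (η * e / 2 * n0) := mul_le_mul_of_nonneg_right h4 (by positivity)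
      _ = η * n0 * (e * n) := by ring
  linarith

end Pool.Agent.Lib_helper31.DIC
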